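import Pool.Agent.P.MP_8d2e9f_nt.AO.AllF

/-!
An abelian extension of `ℚ` that has property (USB), together with all its finite extensions, and
does not have the Northcott property.
-/

namespace Pool.Agent.Results.MP_8d2e9f_nt.AbelianNotN

open Pool.Agent.P.MP_8d2e9f_nt.G Pool.Agent.P.MP_8d2e9f_nt.AO

theorem result : ∃ L : IntermediateField ℚ Qbar, IsAbelianGalois ℚ L ∧ PropertyUSB L.toSubfield ∧
    ¬ PropertyN L.toSubfield ∧
      ∀ E : IntermediateField L Qbar, FiniteDimensional L E → PropertyUSB E.toSubfield :=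
  finf_main all_CANH all_MAING2 all_TOWER all_DSC all_NOTN all_ABQ all_MAINF

end Pool.Agent.Results.MP_8d2e9f_nt.AbelianNotN
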