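import Pool.Agent.P.MP_8d2e9f_nt.AO.AllE

/-!
An abelian extension of a number field has the strong Bogomolov property relative to the canonical
height of every rational map of degree at least two without invariant pluridifferential.
-/

namespace Pool.Agent.Results.MP_8d2e9f_nt.AbelianSB

open Pool.Agent.P.MP_8d2e9f_nt.G Pool.Agent.P.MP_8d2e9f_nt.AO

theorem result (K : IntermediateField ℚ Qbar) [FiniteDimensional ℚ K]
    (L : IntermediateField K Qbar) [IsAbelianGalois K L] (f : RatFunc Qbar)
    (hf : 2 ≤ ratDegree f) (hn : ¬ InvariantForm f) (H : ProjLine → ℝ)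
    (hH : IsCanonicalHeight f H) : StrongBogomolov L.toSubfield f H :=
  fine_main all_CANH all_COMPO all_MAING2 all_PREP K inferInstance L inferInstance f hf hn H hH

end Pool.Agent.Results.MP_8d2e9f_nt.AbelianSB
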