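import Pool.Agent.P.MP_8d2e9f_nt.G.All

/-!
Q2, strong negative answer: a Galois extension of the rationals all of whose finite extensions
have (P), (R) and the finiteness half of (USB), while the gap half of (SB) fails for every map
defined over it.
-/

namespace Pool.Agent.Results.MP_8d2e9f_nt.GaloisGap

open Pool.Agent.P.MP_8d2e9f_nt.G

theorem result : ∃ F : Subfield Qbar, IsGalois ℚ F ∧ PropertyP F ∧ ¬ PropertyUSB F ∧
    (∀ E : Subfield Qbar, F ≤ E → F.relrank E < Cardinal.aleph0 →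
      PropertyP E ∧ ∀ f : RatFunc Qbar, 2 ≤ ratDegree f →
        (pointsOver E ∩ PrePer f).Finite ∧ ∀ X ⊆ pointsOver E, ratMap f '' X = X → X.Finite) ∧
    ∀ f : RatFunc Qbar, DefinedOver F f → 2 ≤ ratDegree f → ∃ H, IsCanonicalHeight f H ∧
      ∀ c : ℝ, 0 < c → ∃ α ∈ pointsOver F, α ∉ PrePer f ∧ H α < c := by
  obtain ⟨F, h1, h2, h3, h4⟩ := all_MAIN
  have e : (⊥ : IntermediateField F Qbar).toSubfield = F.toSubfield := Subfield.ext fun x =>
    IntermediateField.mem_bot.trans ⟨fun ⟨y, hy⟩ => hy ▸ y.2, fun hx => ⟨⟨x, hx⟩, rfl⟩⟩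
  refine ⟨F.toSubfield, h1, e ▸ (h2 ⊥ inferInstance).1, h4, fun E hE hr => ?_, h3⟩
  rw [Subfield.relrank_eq_rank_of_le hE] at hr
  exact h2 (Subfield.extendScalars hE) (Module.rank_lt_aleph0_iff.1 hr)

end Pool.Agent.Results.MP_8d2e9f_nt.GaloisGap
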