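import Pool.Agent.P.MP_8d2e9f_nt.PR.Main
import Pool.Agent.P.MP_8d2e9f_nt.AO.AllB

/-!
Property (P) does not imply property (R): an abelian extension `L` of `ℚ(i)` all of whose finite
extensions have (P) and (SB) relative to the canonical height of every polynomial, while a rational
map of degree four over `ℚ` maps an infinite subset of `L` onto itself; `L` does not have (USB).
-/

namespace Pool.Agent.Results.MP_8d2e9f_nt.PNotR

open Pool.Agent.P.MP_8d2e9f_nt Pool.Agent.P.MP_8d2e9f_nt.G Pool.Agent.P.MP_8d2e9f_nt.AO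

theorem result : ∃ i : Qbar, i ^ 2 = -1 ∧
    ∃ L : IntermediateField (IntermediateField.adjoin ℚ {i}) Qbar,
      IsAbelianGalois (IntermediateField.adjoin ℚ {i}) L ∧
      (∀ E : Subfield Qbar, L.toSubfield ≤ E → L.toSubfield.relrank E < Cardinal.aleph0 →
        PropertyP E ∧ PolyUSB E) ∧
      (∃ f : RatFunc Qbar, DefinedOver ⊥ f ∧ ratDegree f = 4 ∧
        ∃ S : Set Qbar, S ⊆ L ∧ S.Infinite ∧ ratMap f '' (some '' S) = some '' S) ∧
      ¬ PropertyUSB L.toSubfield :=
  PR.main _ fun K L h1 h2 h3 => ⟨all_HASP K L h1 h2 h3, all_USB K L h1 h2 h3⟩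

end Pool.Agent.Results.MP_8d2e9f_nt.PNotR
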